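import Mathlib

set_option autoImplicit false
open Configuration

namespace Pool.Agent.Results.MP_82bed6_co.Cex

def IsHDS {G : Type} [AddCommGroup G] (b : ℕ) (M : Set G) : Prop :=
  M.ncard = 2 ^ (2 * b - 1) - 2 ^ (b - 1) ∧ ∀ g : G, g ≠ 0 →
    {x : G × G | x.1 ∈ M ∧ x.2 ∈ M ∧ x.1 - x.2 = g}.ncard = 2 ^ (2 * b - 2) - 2 ^ (b - 1)

def IsMaxArc {P : Type} (L : Type) [Membership P L] (d : ℕ) (A : Set P) : Prop :=
  ∀ l : L, {p ∈ A | p ∈ l}.ncard = 0 ∨ {p ∈ A | p ∈ l}.ncard = d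

private def M0 : Finset (ZMod 8 × ZMod 2) := {(0, 0), (0, 1), (1, 0), (2, 0), (5, 1), (6, 0)}

private def ok (a b c d e f : Bool) : Bool :=
  a.toNat + (b.toNat + (c.toNat + (d.toNat + (e.toNat + f.toNat)))) == 0 ||
    a.toNat + (b.toNat + (c.toNat + (d.toNat + (e.toNat + f.toNat)))) == 2

private theorem key : ∀ b0 b1 b2 b4 b11 b12 : Bool, ok b0 b1 b2 b4 b11 b12 = true →
    ∀ b3 b5 b10 b13 : Bool, ok b1 b0 b3 b5 b10 b13 = true →
    ∀ b6 b14 : Bool, ok b2 b3 b4 b6 b13 b14 = true →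
    ok b10 b11 b12 b14 b5 b6 = true →
    ∀ b7 b15 : Bool, ok b3 b2 b5 b7 b12 b15 = true →
    ok b11 b10 b13 b15 b4 b7 = true →
    ∀ b8 : Bool, ok b4 b5 b6 b8 b15 b0 = true →
    ok b6 b7 b8 b10 b1 b2 = true →
    ok b12 b13 b14 b0 b7 b8 = true →
    ok b15 b14 b1 b3 b8 b11 = true →
    ∀ b9 : Bool, ok b5 b4 b7 b9 b14 b1 = true →
    ok b7 b6 b9 b11 b0 b3 = true →
    ok b8 b9 b10 b12 b3 b4 = true →
    ok b9 b8 b11 b13 b2 b5 = true →
    ok b13 b12 b15 b1 b6 b9 = true →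
    ok b14 b15 b0 b2 b9 b10 = true →
    b0 = true → (b6 = true → b1 = true ∧ b7 = false) ∧ (b7 = true → b1 = true) := by
  decide +kernel

theorem result : ∃ (b : ℕ) (G : Type) (_ : AddCommGroup G) (M : Set G), 1 ≤ b ∧
    Nat.card G = 2 ^ (2 * b) ∧ IsHDS b M ∧
    ∀ (P L : Type) [Membership P L] [ProjectivePlane P L] [Finite P] [Finite L],
      ProjectivePlane.order P L = 2 ^ b →
      ¬ ∃ φ : G → P, Function.Injective φ ∧
        ∀ g, IsMaxArc L (2 ^ (b - 1)) (φ '' ((· + g) '' M)) := by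
  classical
  refine ⟨2, ZMod 8 × ZMod 2, inferInstance, M0, by norm_num, by simp, ⟨?_, fun g hg => ?_⟩, ?_⟩
  · rw [Set.ncard_coe_finset]; decide
  · rw [show {x : (ZMod 8 × ZMod 2) × (ZMod 8 × ZMod 2) | x.1 ∈ (M0 : Set _) ∧ x.2 ∈ (M0 : Set _) ∧
      x.1 - x.2 = g} = (((M0 ×ˢ M0).filter fun x => x.1 - x.2 = g : Finset _) : Set _) by
        ext; simp [and_assoc], Set.ncard_coe_finset]
    revert g
    decide +kernel
  rintro P L _ _ _ _ - ⟨φ, h1, h2⟩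
  have A : ∀ (l : L) g, ok (φ ((0, 0) + g) ∈ l) (φ ((0, 1) + g) ∈ l) (φ ((1, 0) + g) ∈ l)
      (φ ((2, 0) + g) ∈ l) (φ ((5, 1) + g) ∈ l) (φ ((6, 0) + g) ∈ l) = true := fun l g => by
    have := h2 g l
    rw [show {p ∈ φ '' ((· + g) '' (M0 : Set _)) | p ∈ l} =
      (fun m => φ (m + g)) '' (M0.filter fun m => φ (m + g) ∈ l : Finset _) by
        ext p; simp; grind,
      Set.ncard_image_of_injective (f := fun m => φ (m + g)) _ (h1.comp (add_left_injective g)), Set.ncard_coe_finset,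
      Finset.card_filter, M0, Finset.sum_insert (by decide), Finset.sum_insert (by decide),
      Finset.sum_insert (by decide), Finset.sum_insert (by decide), Finset.sum_insert (by decide),
      Finset.sum_singleton] at this
    simpa [ok, Bool.toNat, Bool.cond_decide] using this
  have B : ∀ l : L, φ (0, 0) ∈ l → (φ (3, 0) ∈ l → φ (0, 1) ∈ l ∧ φ (3, 1) ∉ l) ∧
      (φ (3, 1) ∈ l → φ (0, 1) ∈ l) := fun l => by
    simpa using key (φ (0, 0) ∈ l) (φ (0, 1) ∈ l) (φ (1, 0) ∈ l) (φ (2, 0) ∈ l) (φ (5, 1) ∈ l) (φ (6, 0) ∈ l) (A l (0, 0))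
      (φ (1, 1) ∈ l) (φ (2, 1) ∈ l) (φ (5, 0) ∈ l) (φ (6, 1) ∈ l) (A l (0, 1))
      (φ (3, 0) ∈ l) (φ (7, 0) ∈ l) (A l (1, 0))
      (A l (5, 0))
      (φ (3, 1) ∈ l) (φ (7, 1) ∈ l) (A l (1, 1))
      (A l (5, 1))
      (φ (4, 0) ∈ l) (A l (2, 0))
      (A l (3, 0))
      (A l (6, 0))
      (A l (7, 1))
      (φ (4, 1) ∈ l) (A l (2, 1))
      (A l (3, 1))
      (A l (4, 0))
      (A l (4, 1))
      (A l (6, 1))
      (A l (7, 0))
  obtain ⟨l, ⟨l1, l2⟩, -⟩ := HasLines.existsUnique_line P L (φ (0, 0)) (φ (3, 0)) (h1.ne (by decide))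
  obtain ⟨m, ⟨m1, m2⟩, -⟩ := HasLines.existsUnique_line P L (φ (0, 0)) (φ (3, 1)) (h1.ne (by decide))
  have := (Nondegenerate.eq_or_eq l1 ((B l l1).1 l2).1 m1 ((B m m1).2 m2)).resolve_left
    (h1.ne (by decide))
  exact ((B l l1).1 l2).2 (this ▸ m2)

end Pool.Agent.Results.MP_82bed6_co.Cex
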